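import Pool.Agent.H27.L1.H68.GHK.Targets
import Pool.Agent.H27.L1.H63.GA.PA1

/-!
Row RRT of the board ghk: the scalar products of the convolutions of the translates.
-/

set_option autoImplicit false

namespace Pool.Agent.H27.L1.H80.GHK

open MeasureTheory Pool.Agent.H27.L1.H34.GM Pool.Agent.H27.L1.H34.GZ Pool.Agent.H27.L1.H34.GU Pool.Agent.H27.L1.H34.GA
open Pool.Agent.H27.L1.H68.GHK
open Pool.Agent.H27.L1.H63.GA (p_det_ne p_cont_aN p_cont_inv p_int)

/-- one factor -/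
noncomputable def phf {m N : ℕ} (k : Mat m → ℂ) (F : Mat m → VN m N → ℂ) (u : Mat m) (x : VN m N)
    (y z : V m) : ℂ :=
  k ((aN (mt z))⁻¹ • mt z) * F (mt y * (mt z)⁻¹ * u) x

theorem det3 {m : ℕ} {y z u : Mat m} (hy : y.det ≠ 0) (hz : z.det ≠ 0) (hu : u.det ≠ 0) :
    (y * z⁻¹ * u).det ≠ 0 := by
  rw [Matrix.det_mul, Matrix.det_mul, Matrix.det_nonsing_inv, Ring.inverse_eq_inv']
  exact mul_ne_zero (mul_ne_zero hy (inv_ne_zero hz)) hu

theorem phf_cont {m N : ℕ} [NeZero N] (hm1 : 1 ≤ m) {T : ℕ → Finset (ZM m)}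
    {F : Mat m → VN m N → ℂ} {lam : ℕ → ℂ} (hF : HecA m N T F lam) {k : Mat m → ℂ} (hk : Tg m k)
    {u : Mat m} (hu : u.det ≠ 0) (x : VN m N) {D : Set (V m)} (hD : ∀ z ∈ D, (mt z).det ≠ 0) :
    ContinuousOn (fun p : V m × V m => phf k F u x p.1 p.2) (D ×ˢ Shell m) := by
  have hsS : ∀ z ∈ Shell m, (mt z).det ≠ 0 := fun z hz => p_det_ne hm1 hz.1
  have hc1 : ContinuousOn (fun p : V m × V m => (aN (mt p.2))⁻¹ • mt p.2) (D ×ˢ Shell m) := by
    have e0 : ContinuousOn (fun p : V m × V m => aN (mt p.2 : Mat m)) (D ×ˢ Shell m) :=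
      ((p_cont_aN m).comp (f := fun p : V m × V m => (mt p.2 : Mat m))
        continuous_snd).continuousOn
    have e1 : ContinuousOn (fun p : V m × V m => (aN (mt p.2 : Mat m))⁻¹) (D ×ˢ Shell m) :=
      e0.inv₀ fun p hp => (lt_of_lt_of_le one_pos hp.2.1).ne'
    have e2 : ContinuousOn (fun p : V m × V m => (mt p.2 : Mat m)) (D ×ˢ Shell m) :=
      (continuous_snd (X := V m) (Y := V m)).continuousOn
    exact e1.smul e2
  have hc2 : ContinuousOn (fun p : V m × V m => (mt p.1 * (mt p.2)⁻¹ * u : Mat m))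
      (D ×ˢ Shell m) := by
    have e1 : ContinuousOn (fun p : V m × V m => (mt p.1 : Mat m)) (D ×ˢ Shell m) := by
      exact (continuous_fst (X := V m) (Y := V m)).continuousOn
    have e2 : ContinuousOn (fun p : V m × V m => ((mt p.2)⁻¹ : Mat m)) (D ×ˢ Shell m) := by
      refine (p_cont_inv m).comp (f := fun p : V m × V m => (mt p.2 : Mat m)) ?_
        (fun p hp => hsS _ hp.2)
      exact (continuous_snd (X := V m) (Y := V m)).continuousOn
    exact (e1.mul e2).mul continuousOn_const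
  unfold phf
  refine ContinuousOn.mul ?_ ?_
  · exact hk.cont.comp_continuousOn hc1
  · exact (hF.cont x).comp hc2 (fun p hp => det3 (hD _ hp.1) (hsS _ hp.2) hu)

/-- the integrand -/
noncomputable def HH {m N : ℕ} (k : Mat m → ℂ) (F : Mat m → VN m N → ℂ) (u u' : Mat m)
    (x : VN m N) (y : V m) (p : V m × V m) : ℂ :=
  phf k F u x y p.1 * (starRingEnd ℂ) (phf k F u' x y p.2)

theorem HH_int (hUBD : T_UBD) (hMSR : T_MSR) (hVLM : T_VLM) {m N : ℕ} [NeZero N]
    {T : ℕ → Finset (ZM m)} {D : Set (V m)} (hS : SysZ m N T D) {F : Mat m → VN m N → ℂ}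
    {lam : ℕ → ℂ} (hF : HecA m N T F lam) {k : Mat m → ℂ} (hk : Tg m k) {u u' : Mat m}
    (hu : u.det ≠ 0) (hu' : u'.det ≠ 0) (x : VN m N) :
    Integrable (Function.uncurry (HH k F u u' x)) (((hm m).restrict D).prod
      (((hm m).restrict (Shell m)).prod ((hm m).restrict (Shell m)))) := by
  have hm1 := hS.one_le
  have hD := hS.dom
  obtain ⟨C, K, -, hvl⟩ := hVLM m hm1
  have hfin : hm m D < ⊤ := lt_of_le_of_lt (hvl D hD).1 ENNReal.ofReal_lt_top
  have hfm : IsFiniteMeasure ((hm m).restrict D) := ⟨by rwa [Measure.restrict_apply_univ]⟩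
  obtain ⟨-, -, -, -, hsig, hSh, -, -⟩ := hMSR.1 m
  have := hsig
  obtain ⟨BF, hBF⟩ := hF.bdd
  have hsD : ∀ z ∈ D, (mt z).det ≠ 0 := fun z hz => p_det_ne hm1 (hD.shell z hz).1
  have hsS : ∀ z ∈ Shell m, (mt z).det ≠ 0 := fun z hz => p_det_ne hm1 hz.1
  have hki : Integrable (fun z : V m => k ((aN (mt z))⁻¹ • mt z))
      ((hm m).restrict (Shell m)) := by
    have h1 := p_int hUBD hm1 hk one_pos
    simp only [inv_one, one_mul] at h1
    exact h1
  have h1 : Integrable (fun p : V m × (V m × V m) => (BF ^ 2 : ℝ) *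
      (‖k ((aN (mt p.2.1))⁻¹ • mt p.2.1)‖ * ‖k ((aN (mt p.2.2))⁻¹ • mt p.2.2)‖))
      (((hm m).restrict D).prod
        (((hm m).restrict (Shell m)).prod ((hm m).restrict (Shell m)))) :=
    (integrable_const (BF ^ 2 : ℝ)).mul_prod (hki.norm.mul_prod hki.norm)
  have hprod : ((hm m).restrict D).prod
      (((hm m).restrict (Shell m)).prod ((hm m).restrict (Shell m))) =
      ((hm m).prod ((hm m).prod (hm m))).restrict (D ×ˢ (Shell m ×ˢ Shell m)) := by
    rw [Measure.prod_restrict, Measure.prod_restrict]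
  have hmeasS : MeasurableSet (D ×ˢ (Shell m ×ˢ Shell m)) := hD.meas.prod (hSh.prod hSh)
  refine h1.mono' ?_ ?_
  · rw [hprod]
    refine ContinuousOn.aestronglyMeasurable ?_ hmeasS
    have c1 := phf_cont hm1 hF hk hu x hsD
    have c2 := phf_cont hm1 hF hk hu' x hsD
    have d1 : ContinuousOn (fun p : V m × (V m × V m) => phf k F u x p.1 p.2.1)
        (D ×ˢ (Shell m ×ˢ Shell m)) :=
      c1.comp (f := fun p : V m × (V m × V m) => (p.1, p.2.1)) (by fun_prop)
        fun p hp => ⟨hp.1, hp.2.1⟩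
    have d2 : ContinuousOn (fun p : V m × (V m × V m) => phf k F u' x p.1 p.2.2)
        (D ×ˢ (Shell m ×ˢ Shell m)) :=
      c2.comp (f := fun p : V m × (V m × V m) => (p.1, p.2.2)) (by fun_prop)
        fun p hp => ⟨hp.1, hp.2.2⟩
    exact d1.mul (Complex.continuous_conj.comp_continuousOn d2)
  · rw [hprod]
    filter_upwards [ae_restrict_mem hmeasS] with p hp
    have b1 := hBF (mt p.1 * (mt p.2.1)⁻¹ * u) x (det3 (hsD _ hp.1) (hsS _ hp.2.1) hu)
    have b2 := hBF (mt p.1 * (mt p.2.2)⁻¹ * u') x (det3 (hsD _ hp.1) (hsS _ hp.2.2) hu')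
    change ‖phf k F u x p.1 p.2.1 * (starRingEnd ℂ) (phf k F u' x p.1 p.2.2)‖ ≤ _
    rw [norm_mul, RCLike.norm_conj]
    unfold phf
    rw [norm_mul, norm_mul]
    have b0 : 0 ≤ BF := (norm_nonneg _).trans b1
    calc ‖k ((aN (mt p.2.1))⁻¹ • mt p.2.1)‖ * ‖F (mt p.1 * (mt p.2.1)⁻¹ * u) x‖ *
          (‖k ((aN (mt p.2.2))⁻¹ • mt p.2.2)‖ * ‖F (mt p.1 * (mt p.2.2)⁻¹ * u') x‖)
        ≤ ‖k ((aN (mt p.2.1))⁻¹ • mt p.2.1)‖ * BF *
          (‖k ((aN (mt p.2.2))⁻¹ • mt p.2.2)‖ * BF) := by gcongr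
      _ = _ := by ring

/-- **the scalar products of the convolutions of the translates** -/
theorem pf_RRT (hUBD : T_UBD) (hMSR : T_MSR) (hVLM : T_VLM) : T_RRT := by
  intro m N _ T D hS F lam hF k hk u u' hu hu'
  obtain ⟨-, -, -, -, hsig, hSh, -, -⟩ := hMSR.1 m
  have := hsig
  have hint := fun x => HH_int hUBD hMSR hVLM hS hF hk hu hu' x
  have e1 : ∀ (v : Mat m) (y : V m) (x : VN m N), Rr k 1 (rt v F) (mt y) x =
      ∫ z in Shell m, phf k F v x y z ∂(hm m) := by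
    intro v y x
    unfold Rr rt phf
    simp only [inv_one, one_mul]
  have e2 : ∀ x, ∫ y in D, Rr k 1 (rt u F) (mt y) x *
      (starRingEnd ℂ) (Rr k 1 (rt u' F) (mt y) x) ∂(hm m) =
      ∫ p, ∫ y in D, HH k F u u' x y p ∂(hm m)
        ∂(((hm m).restrict (Shell m)).prod ((hm m).restrict (Shell m))) := by
    intro x
    rw [← integral_integral_swap (hint x)]
    refine integral_congr_ae (Filter.Eventually.of_forall fun y => ?_)
    change Rr k 1 (rt u F) (mt y) x * (starRingEnd ℂ) (Rr k 1 (rt u' F) (mt y) x) =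
      ∫ p, phf k F u x y p.1 * (starRingEnd ℂ) (phf k F u' x y p.2)
        ∂(((hm m).restrict (Shell m)).prod ((hm m).restrict (Shell m)))
    rw [e1, e1, ← integral_conj]
    exact (integral_prod_mul (fun z => phf k F u x y z)
      (fun z => (starRingEnd ℂ) (phf k F u' x y z))).symm
  have hG : ∀ x, Integrable (fun p => ∫ y in D, HH k F u u' x y p ∂(hm m))
      (((hm m).restrict (Shell m)).prod ((hm m).restrict (Shell m))) :=
    fun x => (hint x).integral_prod_right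
  unfold ip
  rw [Finset.sum_congr rfl fun x _ => e2 x, ← integral_finsetSum _ fun x _ => hG x,
    integral_prod _ (integrable_finsetSum _ fun x _ => hG x)]
  refine integral_congr_ae (Filter.Eventually.of_forall fun z => ?_)
  refine integral_congr_ae (Filter.Eventually.of_forall fun z' => ?_)
  change ∑ x, ∫ y in D, HH k F u u' x y (z, z') ∂(hm m) = k ((aN (mt z))⁻¹ • mt z) *
    (starRingEnd ℂ) (k ((aN (mt z'))⁻¹ • mt z')) *
    ∑ x, ∫ y in D, rt ((mt z)⁻¹ * u) F (mt y) x *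
      (starRingEnd ℂ) (rt ((mt z')⁻¹ * u') F (mt y) x) ∂(hm m)
  rw [Finset.mul_sum]
  refine Finset.sum_congr rfl fun x _ => ?_
  rw [← integral_const_mul]
  refine integral_congr_ae (Filter.Eventually.of_forall fun y => ?_)
  change HH k F u u' x y (z, z') = k ((aN (mt z))⁻¹ • mt z) *
    (starRingEnd ℂ) (k ((aN (mt z'))⁻¹ • mt z')) *
    (rt ((mt z)⁻¹ * u) F (mt y) x * (starRingEnd ℂ) (rt ((mt z')⁻¹ * u') F (mt y) x))
  unfold HH phf rt
  rw [map_mul, Matrix.mul_assoc, Matrix.mul_assoc]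
  ring

end Pool.Agent.H27.L1.H80.GHK
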